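import Pool.Agent.H998.LT.Defs

/-!
# Modulated Poisson formula (part of MP_4be4c6_an, project of helper998)
-/

set_option autoImplicit false

open MeasureTheory Real Filter Asymptotics
open scoped FourierTransform ComplexConjugate

namespace Pool.Agent.H277.LT

open Pool.Agent.H998.LT

theorem norm_e (t : ℝ) : ‖e t‖ = 1 := by
  have h : (2 * (π : ℂ) * (t : ℂ) * Complex.I) = ((2 * π * t : ℝ) : ℂ) * Complex.I := by
    push_cast; ring
  rw [e, h, Complex.norm_exp_ofReal_mul_I]

theorem e_add (a b : ℝ) : e (a + b) = e a * e b := by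
  rw [e, e, e, ← Complex.exp_add]
  congr 1
  push_cast
  ring

theorem e_cont : Continuous e := by
  unfold e
  fun_prop

/-- quadratic decay along an affine substitution -/
theorem dec {C a T : ℝ} (hC : 0 ≤ C) (hT : T ≠ 0) {F : ℝ → ℂ}
    (hF : ∀ s, ‖F s‖ ≤ C / (1 + (a + T * s) ^ 2)) :
    F =O[cocompact ℝ] (fun x => |x| ^ (-2 : ℝ)) := by
  refine IsBigO.of_bound (4 * C / T ^ 2) ?_
  filter_upwards [tendsto_norm_cocompact_atTop.eventually_ge_atTop (2 * |a| / |T| + 1)] with s hs
  rw [Real.norm_eq_abs] at hs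
  have hT' : 0 < |T| := abs_pos.2 hT
  have hs1 : 0 < |s| := by
    have : 0 ≤ 2 * |a| / |T| := by positivity
    linarith
  have hs0 : s ≠ 0 := abs_pos.1 hs1
  have h1 : 2 * |a| ≤ |T * s| := by
    have h2 : 2 * |a| / |T| ≤ |s| := by linarith
    rw [div_le_iff₀ hT'] at h2
    rw [abs_mul]
    linarith
  have h2 : |T * s| / 2 ≤ |a + T * s| := by
    have h3 : |T * s| - |a| ≤ |a + T * s| := by
      have := abs_sub_abs_le_abs_sub (T * s) (-a)
      rw [abs_neg] at this
      have h4 : T * s - -a = a + T * s := by ring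
      rwa [h4] at this
    linarith
  have h3 : (T * s) ^ 2 / 4 ≤ (a + T * s) ^ 2 := by
    have h4 := mul_self_le_mul_self (by positivity) h2
    have h5 : |T * s| / 2 * (|T * s| / 2) = (T * s) ^ 2 / 4 := by
      rw [← sq_abs (T * s)]; ring
    have h6 : |a + T * s| * |a + T * s| = (a + T * s) ^ 2 := by
      rw [← sq_abs (a + T * s)]; ring
    rwa [h5, h6] at h4
  have h7 : 0 < (T * s) ^ 2 / 4 := by positivity
  calc ‖F s‖ ≤ C / (1 + (a + T * s) ^ 2) := hF s
    _ ≤ C / ((T * s) ^ 2 / 4) := by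
        apply div_le_div_of_nonneg_left hC h7
        linarith
    _ = 4 * C / T ^ 2 * ‖|s| ^ (-2 : ℝ)‖ := by
        rw [Real.norm_eq_abs, abs_of_nonneg (by positivity), Real.rpow_neg (abs_nonneg s),
          Real.rpow_two, sq_abs]
        field_simp

theorem summ {F : ℝ → ℂ} (h : F =O[cocompact ℝ] (fun x => |x| ^ (-2 : ℝ))) :
    Summable fun n : ℤ => F n :=
  summable_of_isBigO (Real.summable_abs_int_rpow one_lt_two)
    (h.comp_tendsto Int.tendsto_coe_cofinite)

/-- Fourier transform of the modulated and rescaled function -/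
theorem fourier_mod (g : ℝ → ℂ) {T : ℝ} (hT : 0 < T) (τ γ y w : ℝ) :
    𝓕 (fun s : ℝ => e (γ * (T * s + τ)) * g (y - (T * s + τ))) w =
      (1 / T : ℂ) * (e (-(w * (y - τ) / T)) * e (γ * y) * 𝓕 g (γ - w / T)) := by
  rw [fourier_real_eq_integral_exp_smul, fourier_real_eq_integral_exp_smul]
  let Ψ : ℝ → ℂ := fun v => e (-(w * (y - τ) / T)) * e (γ * y) *
        (Complex.exp ((-2 * π * v * (γ - w / T) : ℝ) * Complex.I) • g v)
  have h1 : ∀ s : ℝ, Complex.exp ((-2 * π * s * w : ℝ) * Complex.I) •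
      (e (γ * (T * s + τ)) * g (y - (T * s + τ))) = Ψ ((y - τ) - T * s) := by
    intro s
    have h2 : y - (T * s + τ) = (y - τ) - T * s := by ring
    simp only [h2, smul_eq_mul, Ψ]
    rw [← mul_assoc, ← mul_assoc, e, e, e, ← Complex.exp_add, ← Complex.exp_add,
      ← Complex.exp_add]
    congr 2
    have hT' : (T : ℂ) ≠ 0 := by exact_mod_cast hT.ne'
    push_cast
    field_simp
    ring
  simp_rw [h1]
  rw [MeasureTheory.Measure.integral_comp_mul_left (fun u : ℝ => Ψ ((y - τ) - u)) T,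
    MeasureTheory.integral_sub_left_eq_self Ψ volume (y - τ)]
  simp only [Ψ]
  rw [MeasureTheory.integral_const_mul, abs_of_pos (inv_pos.2 hT), one_div, Complex.real_smul]
  push_cast
  rfl

theorem t_poisson : S_poisson := by
  intro g G C hN T hT τ γ y
  have hC : 0 ≤ C := by
    have h := (norm_nonneg _).trans (hN.bound 0)
    simpa using h
  have hTc : (T : ℂ) ≠ 0 := by exact_mod_cast hT.ne'
  -- the function
  have hdf : (fun s : ℝ => e (γ * (T * s + τ)) * g (y - (T * s + τ))) =O[cocompact ℝ]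
      (fun x => |x| ^ (-2 : ℝ)) := by
    refine dec (C := C) (a := y - τ) (T := -T) hC (neg_ne_zero.2 hT.ne') ?_
    intro s
    rw [norm_mul, norm_e, one_mul]
    have h := hN.bound (y - (T * s + τ))
    have h2 : y - (T * s + τ) = y - τ + -T * s := by ring
    rwa [h2] at h ⊢
  have hdG : ∀ γ' : ℝ, (fun s : ℝ => G (s / T + γ')) =O[cocompact ℝ]
      (fun x => |x| ^ (-2 : ℝ)) := by
    intro γ'
    refine dec (C := C) (a := γ') (T := T⁻¹) hC (inv_ne_zero hT.ne') ?_
    intro s
    have h := hN.boundF (s / T + γ')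
    have h2 : s / T + γ' = γ' + T⁻¹ * s := by
      rw [div_eq_inv_mul]; ring
    rwa [h2] at h ⊢
  have hF : ∀ w : ℝ, 𝓕 (fun s : ℝ => e (γ * (T * s + τ)) * g (y - (T * s + τ))) w =
      (1 / T : ℂ) * (e (-(w * (y - τ) / T)) * e (γ * y) * G (γ - w / T)) := by
    intro w
    rw [fourier_mod g hT, hN.fourier]
  have hFd : (𝓕 (fun s : ℝ => e (γ * (T * s + τ)) * g (y - (T * s + τ)))) =O[cocompact ℝ]
      (fun x => |x| ^ (-2 : ℝ)) := by
    refine dec (C := C / T) (a := γ) (T := -T⁻¹) (by positivity)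
      (neg_ne_zero.2 (inv_ne_zero hT.ne')) ?_
    intro s
    rw [hF, norm_mul, norm_mul, norm_mul, norm_e, norm_e, one_mul, one_mul]
    have h := hN.boundF (γ - s / T)
    have h2 : γ - s / T = γ + -T⁻¹ * s := by
      rw [div_eq_inv_mul]; ring
    rw [h2] at h ⊢
    have h3 : ‖(1 / T : ℂ)‖ = 1 / T := by
      rw [norm_div, norm_one, Complex.norm_real, Real.norm_eq_abs, abs_of_pos hT]
    rw [h3]
    calc 1 / T * ‖G (γ + -T⁻¹ * s)‖ ≤ 1 / T * (C / (1 + (γ + -T⁻¹ * s) ^ 2)) := by gcongr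
      _ = C / T / (1 + (γ + -T⁻¹ * s) ^ 2) := by ring
  have hcont : Continuous (fun s : ℝ => e (γ * (T * s + τ)) * g (y - (T * s + τ))) := by
    have h1 := e_cont
    have h2 := hN.cont
    fun_prop
  refine ⟨?_, ?_, ?_⟩
  · have h := (summ hdf).norm
    refine h.congr fun n => ?_
    rw [norm_mul, norm_e, one_mul]
  · exact (summ (hdG γ)).norm
  · have hP := Real.tsum_eq_tsum_fourier_of_rpow_decay hcont one_lt_two hdf hFd 0
    simp only [zero_add] at hP
    rw [hP, ← tsum_mul_left]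
    rw [← (Equiv.neg ℤ).tsum_eq]
    apply tsum_congr
    intro k
    have h0 : fourier (Equiv.neg ℤ k) ((0 : ℝ) : UnitAddCircle) = 1 := by
      simp
    rw [h0, mul_one, hF]
    have h4 : (((Equiv.neg ℤ k : ℤ)) : ℝ) = -(k : ℝ) := by simp
    rw [h4]
    have h5 : γ - -(k : ℝ) / T = k / T + γ := by ring
    rw [h5]
    have h6 : e (-(-(k : ℝ) * (y - τ) / T)) * e (γ * y) =
        e (-(k * τ / T)) * e ((k / T + γ) * y) := by
      rw [← e_add, ← e_add]
      congr 1
      field_simp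
      ring
    rw [h6]
    field_simp

end Pool.Agent.H277.LT
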